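import Pool.Agent.K1H47.RA.Stm
import Pool.Agent.K1H47.RC.Loc3
import Pool.Agent.K1H33.RC.Flat
import Pool.Agent.K1H65.RC.Open
import Pool.Agent.K1H99.RC.Strict

set_option autoImplicit false

/-! Piece VEL: an orbit with velocity zero is constant. -/

namespace Pool.Agent.K1H16.RA

open MvPolynomial Topology Filter Pool.Agent.H936R2 Pool.Agent.R847.Gap Pool.Agent.K1H69.MZ
open Pool.Agent.K1H47.RC Pool.Agent.K1H47.RA

/-- a function with many zeros near zero has derivative zero -/
theorem deriv_zero {L : Type} [NontriviallyNormedField L] {q : L} (hq0 : q ≠ 0) (hq : ‖q‖ < 1)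
    {g : L → L} {g' : L} (hg : HasDerivAt g g' 0) (h0 : g 0 = 0)
    (hz : ∀ᶠ e : ℕ in atTop, g (q ^ e) = 0) : g' = 0 := by
  have h1 : Tendsto (fun e : ℕ => q ^ e) atTop (𝓝[≠] 0) := by
    refine tendsto_nhdsWithin_iff.2 ⟨tendsto_pow_atTop_nhds_zero_of_norm_lt_one hq, ?_⟩
    exact Eventually.of_forall fun e => pow_ne_zero e hq0
  have h2 := hg.tendsto_slope.comp h1
  have h3 : (slope g 0 ∘ fun e : ℕ => q ^ e) =ᶠ[atTop] fun _ => (0 : L) := by
    filter_upwards [hz] with e he
    simp [slope, he, h0]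
  have h4 : Tendsto (fun _ : ℕ => (0 : L)) atTop (𝓝 g') := h2.congr' h3
  exact (tendsto_nhds_unique h4 tendsto_const_nhds)

/-- the identity theorem for the velocity, from FLAT applied to the doubled family -/
theorem flat2 {L : Type} [NontriviallyNormedField L] [CompleteSpace L] [IsUltrametricDist L]
    [CharZero L] (p : ℕ) [hp : Fact p.Prime] (hpL : ‖(p : L)‖ < 1) {ι : Type} [Fintype ι]
    (C C' : ι → ℕ → L → L) (hC : Fam ‖(p : L)‖ C C') (a : ι) (ha : ev C 0 0 a ≠ 0)
    (hv : ∀ n : ℕ, ∃ l : L, ∀ i, evt C 0 n i = l * ev C 0 n i) (n : ℕ) (i j : ι) :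
    ev C 0 n i * ev C 0 0 j = ev C 0 n j * ev C 0 0 i := by
  classical
  set c : ι ⊕ ι → ℕ → L → L := Sum.elim (fun i k _ => C i k 0) (fun i k s => s * C i k 0) with hc
  set c' : ι ⊕ ι → ℕ → L → L := Sum.elim (fun _ _ _ => 0) (fun i k _ => C i k 0) with hc'
  have hb : ∀ i k, ‖C i k 0‖ ≤ ‖(p : L)‖ ^ k := fun i k => (hC i k).1 0 (by simp)
  have hFam : Fam ‖(p : L)‖ c c' := by
    rintro (i | i) k
    · exact Sm.const _ (hb i k)
    · refine ⟨fun s hs => ?_, fun s _ => hb i k, fun s s' s₁ _ _ _ => ?_⟩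
      · change ‖s * C i k 0‖ ≤ _
        rw [norm_mul]
        exact (mul_le_of_le_one_left (norm_nonneg _) hs).trans (hb i k)
      · change ‖s * C i k 0 - s' * C i k 0 - C i k 0 * (s - s')‖ ≤ _
        have e : s * C i k 0 - s' * C i k 0 - C i k 0 * (s - s') = 0 := by ring
        rw [e, norm_zero]
        positivity
  have e1 : ∀ s t i, ev c s t (Sum.inl i) = ev C 0 t i := fun s t i => rfl
  have e2 : ∀ s t i, ev c s t (Sum.inr i) = s * ev C 0 t i := fun s t i => by
    unfold ev
    rw [← tsum_mul_left]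
    refine tsum_congr fun k => ?_
    change s * C i k 0 * t ^ k = s * (C i k 0 * t ^ k)
    ring
  have e3 : ∀ s t i, ev c' s t (Sum.inl i) = 0 := fun s t i => by
    unfold ev
    simp [hc']
  have e4 : ∀ s t i, ev c' s t (Sum.inr i) = ev C 0 t i := fun s t i => rfl
  have e5 : ∀ s t i, evt c s t (Sum.inl i) = evt C 0 t i := fun s t i => rfl
  have e6 : ∀ s t i, evt c s t (Sum.inr i) = s * evt C 0 t i := fun s t i => by
    unfold evt
    rw [← tsum_mul_left]
    refine tsum_congr fun k => ?_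
    change ((k + 1 : ℕ) : L) * (s * C i (k + 1) 0) * t ^ k =
      s * (((k + 1 : ℕ) : L) * C i (k + 1) 0 * t ^ k)
    ring
  have hev0 : ∀ i, C i 0 0 = ev C 0 0 i := fun i => (ev_zero C 0 i).symm
  have key := Pool.Agent.K1H33.RC.t_FLAT L (ι ⊕ ι) ‖(p : L)‖ (norm_nonneg _) hpL c c' hFam 1
    one_pos le_rfl (fun s _ => ⟨Sum.inl a, Sum.inr a, by
      change C a 0 0 * C a 0 0 - s * C a 0 0 * 0 ≠ 0
      rw [hev0, mul_zero, sub_zero]
      exact mul_ne_zero ha ha⟩) _ (acc_multiples p hpL one_pos one_pos)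
    (by
      rintro s - t ⟨m, -, rfl, -⟩ - i j k
      obtain ⟨l, hl⟩ := hv m
      have h1 : ∀ x : ι ⊕ ι, evt c s m x = l * ev c s m x := by
        rintro (x | x)
        · rw [e5, e1, hl]
        · rw [e6, e2, hl]; ring
      unfold mnr
      rw [Matrix.det_fin_three]
      simp only [Matrix.of_apply, Matrix.cons_val', Matrix.cons_val_zero, Matrix.cons_val_one,
        Matrix.cons_val]
      rw [h1 i, h1 j, h1 k]
      ring)
    (X (Sum.inl i) * MvPolynomial.C (ev C 0 0 j) - X (Sum.inl j) * MvPolynomial.C (ev C 0 0 i)) 1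
    (by
      refine IsHomogeneous.sub ?_ ?_
      · exact (isHomogeneous_X _ _).mul (isHomogeneous_C _ _)
      · exact (isHomogeneous_X _ _).mul (isHomogeneous_C _ _))
    (fun s _ => by
      rw [map_sub, map_mul, map_mul, eval_X, eval_X, eval_C, eval_C]
      change C i 0 0 * ev C 0 0 j - C j 0 0 * ev C 0 0 i = 0
      rw [hev0, hev0]
      ring) 0 n (by simp) (IsUltrametricDist.norm_natCast_le_one L n)
  rw [map_sub, map_mul, map_mul, eval_X, eval_X, eval_C, eval_C, e1, e1] at key
  exact sub_eq_zero.1 key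

theorem t_VEL : S_VEL := by
  intro L _ _ _ _ p hp hpL ι _ _ A B Q F G hG z hzp hz k C C' hC hH hvel
  have hp0 := norm_p_pos' (L := L) p
  have hpne : (p : L) ≠ 0 := Nat.cast_ne_zero.2 hp.out.ne_zero
  choose W hWp hWi hWR using hH
  have hδ0 : 0 ≤ ‖(p : L)‖ ^ 2 := by positivity
  have hδ := sq_lt (L := L) p hpL
  -- a nonzero coordinate
  have hne : ∀ n : ℕ, ∃ i, ev C 0 n i ≠ 0 := by
    intro n
    obtain ⟨i, hi⟩ := hWp n
    refine ⟨i, fun h0 => ?_⟩
    rw [← hWi n i] at h0
    unfold nm at hi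
    rw [h0, norm_zero] at hi
    exact zero_ne_one hi
  -- derivatives in the time
  have hder : ∀ t₁ : L, ‖t₁‖ ≤ 1 → HasDerivAt (fun t => ev C 0 t) (evt C 0 t₁) t₁ := by
    intro t₁ ht₁
    obtain ⟨D, hD1, hD2⟩ := Pool.Agent.K1H99.RC.t_STRICT L ι ‖(p : L)‖ hp0.le hpL C C' hC 0 t₁
      (by simp) ht₁
    have h1 : HasDerivAt (fun t : L => ((0 : L), t)) ((0 : L), (1 : L)) t₁ :=
      (hasDerivAt_const t₁ (0 : L)).prodMk (hasDerivAt_id t₁)
    have h2 := hD2.hasFDerivAt.comp_hasDerivAt t₁ h1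
    rw [hD1, zero_smul, one_smul, zero_add] at h2
    exact h2
  have hn1 : ∀ n : ℕ, ‖(n : L)‖ ≤ 1 := IsUltrametricDist.norm_natCast_le_one L
  obtain ⟨i0, hi0⟩ := hne 0
  rw [Nat.cast_zero] at hi0
  set a : L := evt C 0 0 i0 / ev C 0 0 i0 with ha
  have hva : ∀ j, evt C 0 0 j = a * ev C 0 0 j := by
    intro j
    have h1 := hvel i0 j
    rw [ha]
    field_simp
    linear_combination h1
  -- the iterates
  have hmain : ∀ (n : ℕ) (i j : ι), evt C 0 n i * ev C 0 n j = evt C 0 n j * ev C 0 n i := by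
    intro n i j
    obtain ⟨Fn, D, hFh, hFn⟩ := chain hG hδ0 hδ hz hzp (k * n)
    set P : ι → MvPolynomial ι L := fun i => map (unitBall L).subtype (Fn i) with hP
    have hPh : ∀ i, (P i).IsHomogeneous D := fun i => (hFh i).map _
    have hPW : ∀ m i, ((pt Fn (W m) i : unitBall L) : L) = eval (ev C 0 m) (P i) := by
      intro m i
      have h1 : ev C 0 (m : L) = fun i => (W m i : L) := funext fun i => (hWi m i).symm
      rw [h1]
      exact eval_coe (W m) (Fn i)
    have hclz0 : Cl (‖(p : L)‖ ^ 2) z (W 0) := by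
      have h1 := hWR 0
      rw [Nat.mul_zero] at h1
      exact h1.2.mono hδ0
    -- the times at which the tuple represents the iterate
    have hstep : ∀ m : ℕ, (∀ j, ‖ev C 0 m j - ev C 0 0 j‖ ≤ ‖(p : L)‖ ^ 2) →
        (∃ j, eval (ev C 0 m) (P j) ≠ 0) ∧
        ∀ i j, ev C 0 ((m : L) + n) i * eval (ev C 0 m) (P j) =
          ev C 0 ((m : L) + n) j * eval (ev C 0 m) (P i) := by
      intro m hm
      have h1 : Cl (‖(p : L)‖ ^ 2) (W 0) (W m) := by
        refine Cl.of_near (c := 1) fun j => ?_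
        rw [one_mul]
        change ‖((W m j - W 0 j : unitBall L) : L)‖ ≤ _
        push_cast
        rw [hWi, hWi, Nat.cast_zero]
        exact hm j
      have h2 := hclz0.trans hδ hzp (hWp 0) (hWp m) h1
      obtain ⟨h3, -⟩ := Rp.mem hG hz hzp (hWR m)
      obtain ⟨h4, h5⟩ := hFn (W m) h3 (hWp m) h2
      have h6 := hWR (m + n)
      rw [Nat.mul_add] at h6
      obtain ⟨v, hv1, hv2⟩ := (Rp.add hG hz hzp (k * m) (k * n)).1 h6
      obtain ⟨hvZ, hvp⟩ := Rp.mem hG hz hzp hv1
      have h7 := Rp.contr hG le_rfl zero_lt_one hz hzp hz hzp (Cl.self le_rfl _) hv1 (hWR m)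
      have h8 := Rp.contr hG le_rfl zero_lt_one hvZ hvp h3 (hWp m) h7 hv2 h5
      constructor
      · obtain ⟨j, hj⟩ := h4
        refine ⟨j, fun h0 => ?_⟩
        rw [← hPW] at h0
        unfold nm at hj
        rw [h0, norm_zero] at hj
        exact zero_ne_one hj
      · intro i j
        have h9 := le_antisymm (h8 i j) (nm_nonneg _)
        have h10 := nm_eq_zero.1 h9
        have h11 : (W (m + n) i : L) * ((pt Fn (W m) j : unitBall L) : L) =
            (W (m + n) j : L) * ((pt Fn (W m) i : unitBall L) : L) := by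
          have h12 := congrArg (fun x : unitBall L => (x : L)) (sub_eq_zero.1 h10)
          push_cast at h12
          exact h12
        rw [hWi, hWi, hPW, hPW, Nat.cast_add] at h11
        exact h11
    obtain ⟨⟨j0, hj0⟩, hprop⟩ := hstep 0 (fun j => by rw [Nat.cast_zero, sub_self, norm_zero]; positivity)
    rw [Nat.cast_zero] at hj0 hprop
    simp only [zero_add] at hprop
    -- the derivative of the values
    have hPder : ∀ i, HasDerivAt (fun t => eval (ev C 0 t) (P i)) (a * (D * eval (ev C 0 0) (P i))) 0 := by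
      intro i
      have h1 := (Pool.Agent.K1H65.RC.strict_eval (P i) (ev C 0 0)).hasFDerivAt.comp_hasDerivAt
        (0 : L) (hder 0 (by simp))
      rw [Pool.Agent.K1H65.RC.grad_apply] at h1
      have h2 : ∑ l, eval (ev C 0 0) (pderiv l (P i)) * evt C 0 0 l =
          a * (D * eval (ev C 0 0) (P i)) := by
        have h3 := congrArg (eval (ev C 0 0)) (hPh i).sum_X_mul_pderiv
        rw [map_sum, map_nsmul, nsmul_eq_mul] at h3
        rw [← h3, Finset.mul_sum]
        refine Finset.sum_congr rfl fun l _ => ?_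
        rw [map_mul, eval_X, hva]
        ring
      rw [h2] at h1
      exact h1
    have hshift : ∀ i, HasDerivAt (fun t : L => ev C 0 (t + n) i) (evt C 0 n i) 0 := by
      intro i
      have h1 : HasDerivAt (fun t => ev C 0 t) (evt C 0 n) ((0 : L) + n) := by
        rw [zero_add]; exact hder n (hn1 n)
      have h2 := h1.comp_add_const (0 : L) (n : L)
      exact (hasDerivAt_pi.1 h2) i
    -- the function with many zeros
    have hzero : ∀ i j, evt C 0 n i * eval (ev C 0 0) (P j) =
        evt C 0 n j * eval (ev C 0 0) (P i) := by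
      intro i j
      have h1 := ((hshift i).mul (hPder j)).sub ((hshift j).mul (hPder i))
      have h2 := deriv_zero hpne hpL h1 (by
        change ev C 0 ((0 : L) + n) i * eval (ev C 0 0) (P j) -
          ev C 0 ((0 : L) + n) j * eval (ev C 0 0) (P i) = 0
        rw [zero_add]
        exact sub_eq_zero.2 (hprop i j)) (by
        have hc : ContinuousAt (fun t => ev C 0 t) (0 : L) := (hder 0 (by simp)).continuousAt
        have ht : Tendsto (fun e : ℕ => ev C 0 ((p : L) ^ e)) atTop (𝓝 (ev C 0 0)) :=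
          hc.tendsto.comp (tendsto_pow_atTop_nhds_zero_of_norm_lt_one hpL)
        have hev : ∀ᶠ e : ℕ in atTop, dist (ev C 0 ((p : L) ^ e)) (ev C 0 0) < ‖(p : L)‖ ^ 2 :=
          (Metric.tendsto_nhds.1 ht) _ (by positivity)
        filter_upwards [hev] with e he
        have h3 := (hstep (p ^ e) (fun l => by
          rw [Nat.cast_pow]
          rw [dist_eq_norm] at he
          exact ((norm_le_pi_norm _ l).trans_lt he).le)).2 i j
        rw [Nat.cast_pow] at h3
        exact sub_eq_zero.2 h3)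
      have h5 : evt C 0 n i * eval (ev C 0 0) (P j) +
          ev C 0 ((0 : L) + n) i * (a * (D * eval (ev C 0 0) (P j))) -
          (evt C 0 n j * eval (ev C 0 0) (P i) +
          ev C 0 ((0 : L) + n) j * (a * (D * eval (ev C 0 0) (P i)))) = 0 := h2
      rw [zero_add] at h5
      linear_combination h5 - a * D * hprop i j
    -- conclusion
    have h4 : ∀ x, eval (ev C 0 0) (P j0) * ev C 0 n x = ev C 0 n j0 * eval (ev C 0 0) (P x) :=
      fun x => by linear_combination hprop x j0
    apply mul_left_cancel₀ hj0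
    linear_combination evt C 0 n i * h4 j - evt C 0 n j * h4 i + ev C 0 n j0 * hzero i j
  -- the identity theorem
  refine flat2 p hpL C C' hC i0 hi0 fun n => ?_
  obtain ⟨j, hj⟩ := hne n
  refine ⟨evt C 0 n j / ev C 0 n j, fun i => ?_⟩
  have h1 := hmain n i j
  field_simp
  linear_combination h1

end Pool.Agent.K1H16.RA
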